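import Mathlib

/-!
# The mobile-hider search game on an interval: definitions

All histories are lists with the most recent entry first.
-/

namespace Pool.Agent.Q215.Alp

open Set Filter Topology
open scoped ENNReal

/-- The next guess of Alpern's strategy (with the parameters `lam`) if the balance of the answers
is `k` and the consistent interval is `[a, b]`; a state is `(k, a, b)`. -/
def guess (lam : ℤ → ℝ) (σ : ℤ × ℝ × ℝ) : ℝ := lam σ.1 * σ.2.1 + (1 - lam σ.1) * σ.2.2

/-- The new state; the answer `true` means that the guess is smaller than the number, `false` that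
it is larger. -/
def upd (lam : ℤ → ℝ) (σ : ℤ × ℝ × ℝ) (b : Bool) : ℤ × ℝ × ℝ :=
  if b then (σ.1 + 1, guess lam σ, σ.2.2) else (σ.1 - 1, σ.2.1, guess lam σ)

/-- The state after a list of answers. -/
def st (lam : ℤ → ℝ) (σ : ℤ × ℝ × ℝ) : List Bool → ℤ × ℝ × ℝ
  | [] => σ
  | b :: s => upd lam (st lam σ s) b

/-- Alpern's pure strategy with the parameters `lam`, starting with balance `0` on `[0, 1]`. A pure
strategy of the searcher maps the list of the answers to the next guess. -/
def alpern (lam : ℤ → ℝ) (s : List Bool) : ℝ := guess lam (st lam (0, 0, 1) s)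

/-- The answers to the first `n` guesses of the strategy `G` if the number is fixed and is `h`. -/
noncomputable def sans (G : List Bool → ℝ) (h : ℝ) : ℕ → List Bool
  | 0 => []
  | n + 1 => (open Classical in decide (G (sans G h n) < h)) :: sans G h n

/-- The payoff in the static game. -/
noncomputable def spay (G : List Bool → ℝ) (h : ℝ) : ℝ≥0∞ :=
  ∑' n, ENNReal.ofReal |G (sans G h n) - h|

/-- The play of the pure strategies `G` of the searcher and `H` of the mobile hider: the lists of
the first `n` guesses and of the answers to them. A pure strategy `H` of the hider maps the list of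
the guesses made so far to his next number. -/
noncomputable def play (G : List Bool → ℝ) (H : List ℝ → ℝ) : ℕ → List ℝ × List Bool
  | 0 => ([], [])
  | n + 1 => (G (play G H n).2 :: (play G H n).1,
      (open Classical in decide (G (play G H n).2 < H (play G H n).1)) :: (play G H n).2)

/-- The guess number `n` (`n = 0, 1, ...`) in the play. -/
noncomputable def guessAt (G : List Bool → ℝ) (H : List ℝ → ℝ) (n : ℕ) : ℝ := G (play G H n).2

/-- The hidden number in the play when guess number `n` is made. -/
noncomputable def posAt (G : List Bool → ℝ) (H : List ℝ → ℝ) (n : ℕ) : ℝ := H (play G H n).1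

/-- The payoff in the mobile-hider game: `∑ |g_n - h_∞|` if the hidden numbers converge to `h_∞`,
and `∞` if they do not converge. -/
noncomputable def pay (G : List Bool → ℝ) (H : List ℝ → ℝ) : ℝ≥0∞ :=
  ⨅ (l : ℝ) (_ : Tendsto (posAt G H) atTop (𝓝 l)), ∑' n, ENNReal.ofReal |guessAt G H n - l|

/-- No guess hits the hidden number. -/
def NoHit (G : List Bool → ℝ) (H : List ℝ → ℝ) : Prop := ∀ n, guessAt G H n ≠ posAt G H n

/-- The pure strategies of the mobile hider: his numbers are in `[0, 1]`, and all the numbers
chosen after a guess `g` lie on the same side of `g` as the number to which `g` was compared. -/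
def IsHider (H : List ℝ → ℝ) : Prop :=
  (∀ l, H l ∈ Icc (0 : ℝ) 1) ∧ ∀ (l l' : List ℝ) (g : ℝ),
    (g < H l → g < H (l' ++ g :: l)) ∧ (H l < g → H (l' ++ g :: l) < g)

/-- The parameters `lam` are those of Alpern's strategy, with the common payoff `v`. -/
def IsAlpern (lam : ℤ → ℝ) (v : ℝ) : Prop :=
  (∀ k, lam k ∈ Ioo (0 : ℝ) 1) ∧ 0 ≤ v ∧
    ∀ h ∈ Icc (0 : ℝ) 1, (∀ s, alpern lam s ≠ h) → spay (alpern lam) h = ENNReal.ofReal v

end Pool.Agent.Q215.Alp
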