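import Pool.Agent.Q215.Alp.Static

/-!
# The hider's strategy
-/

namespace Pool.Agent.Q215.Alp

open Set Filter Topology
open scoped ENNReal

variable {lam : ℤ → ℝ}

/-- Slightly above the guess of Alpern's strategy: affine function of `u`. -/
noncomputable def pos0 (lam : ℤ → ℝ) (σ : ℤ × ℝ × ℝ) : ℝ :=
  σ.2.1 + (σ.2.2 - σ.2.1) * (1 - lam σ.1)

noncomputable def slo0 (lam : ℤ → ℝ) (τ : ℝ) (σ : ℤ × ℝ × ℝ) : ℝ :=
  (σ.2.2 - σ.2.1) * lam σ.1 * τ

/-- The final position: affine function of `u`. -/
noncomputable def pos1 (δ : ℝ) (σ : ℤ × ℝ × ℝ) : ℝ :=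
  if δ ≤ σ.2.2 - σ.2.1 then σ.2.1 + (σ.2.2 - σ.2.1) * (1 / 2)
  else if 0 ≤ σ.1 then σ.2.2 else σ.2.1

noncomputable def slo1 (δ τ : ℝ) (σ : ℤ × ℝ × ℝ) : ℝ :=
  if δ ≤ σ.2.2 - σ.2.1 then (σ.2.2 - σ.2.1) * (1 / 4) * τ
  else if 0 ≤ σ.1 then -((σ.2.2 - σ.2.1) * τ) else (σ.2.2 - σ.2.1) * τ

/-- Position of the hider before the time `N`. -/
noncomputable def p0 (lam : ℤ → ℝ) (τ u : ℝ) (σ : ℤ × ℝ × ℝ) : ℝ :=
  pos0 lam σ + slo0 lam τ σ * u

noncomputable def p1 (δ τ u : ℝ) (σ : ℤ × ℝ × ℝ) : ℝ := pos1 δ σ + slo1 δ τ σ * u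

/-- Update of the hider's state after the guess `g` with the answer `b`. -/
noncomputable def hup (σ : ℤ × ℝ × ℝ) (g : ℝ) (b : Bool) : ℤ × ℝ × ℝ :=
  if b then (σ.1 + 1, max σ.2.1 g, σ.2.2) else (σ.1 - 1, σ.2.1, min σ.2.2 g)

/-- The hider's state after the guesses. -/
noncomputable def hst (lam : ℤ → ℝ) (τ u : ℝ) : List ℝ → ℤ × ℝ × ℝ
  | [] => (0, 0, 1)
  | g :: l => hup (hst lam τ u l) g (open Classical in decide (g < p0 lam τ u (hst lam τ u l)))

/-- The hider's strategy. -/
noncomputable def hid (lam : ℤ → ℝ) (δ τ u : ℝ) (N : ℕ) (l : List ℝ) : ℝ :=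
  if l.length < N then p0 lam τ u (hst lam τ u l)
  else p1 δ τ u (hst lam τ u (l.drop (l.length - N)))

section basic

variable {τ u δ : ℝ}

lemma p0_mem (hl : ∀ k, lam k ∈ Ioo (0 : ℝ) 1) (hτ : τ ∈ Ioo (0 : ℝ) 1) (hu : u ∈ Ioo (0 : ℝ) 1)
    {σ : ℤ × ℝ × ℝ} (h : σ.2.1 < σ.2.2) : p0 lam τ u σ ∈ Ioo σ.2.1 σ.2.2 := by
  obtain ⟨h0, h1⟩ := hl σ.1
  have hd : 0 < σ.2.2 - σ.2.1 := by linarith
  have ht : τ * u < 1 := by nlinarith [hτ.1, hτ.2, hu.1, hu.2]
  have ht0 : 0 < τ * u := mul_pos hτ.1 hu.1
  have e : p0 lam τ u σ = σ.2.1 + (σ.2.2 - σ.2.1) * (1 - lam σ.1 * (1 - τ * u)) := by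
    unfold p0 pos0 slo0; ring
  rw [e]
  have h2 : lam σ.1 * (1 - τ * u) < 1 := by nlinarith
  have h3 : 0 < lam σ.1 * (1 - τ * u) := mul_pos h0 (by linarith)
  constructor
  · have := mul_pos hd (by linarith : 0 < 1 - lam σ.1 * (1 - τ * u))
    linarith
  · nlinarith [mul_pos hd h3]

lemma p1_mem (hτ : τ ∈ Ioo (0 : ℝ) 1) (hu : u ∈ Ioo (0 : ℝ) 1)
    {σ : ℤ × ℝ × ℝ} (h : σ.2.1 < σ.2.2) : p1 δ τ u σ ∈ Ioo σ.2.1 σ.2.2 := by
  have hd : 0 < σ.2.2 - σ.2.1 := by linarith
  have ht : τ * u < 1 := by nlinarith [hτ.1, hτ.2, hu.1, hu.2]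
  have ht0 : 0 < τ * u := mul_pos hτ.1 hu.1
  have m1 := mul_pos hd ht0
  have m2 := mul_pos hd (sub_pos.2 ht)
  unfold p1 pos1 slo1
  split_ifs
  · constructor <;> nlinarith
  · constructor <;> nlinarith
  · constructor <;> nlinarith

lemma hst_mem (hl : ∀ k, lam k ∈ Ioo (0 : ℝ) 1) (hτ : τ ∈ Ioo (0 : ℝ) 1)
    (hu : u ∈ Ioo (0 : ℝ) 1) (l : List ℝ) :
    0 ≤ (hst lam τ u l).2.1 ∧ (hst lam τ u l).2.1 < (hst lam τ u l).2.2 ∧
      (hst lam τ u l).2.2 ≤ 1 := by
  induction l with
  | nil => simp [hst]
  | cons g l ih =>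
    obtain ⟨h1, h2, h3⟩ := ih
    have hp := p0_mem hl hτ hu h2
    by_cases hg : g < p0 lam τ u (hst lam τ u l)
    · simp only [hst, hup, hg, decide_true, if_true]
      exact ⟨h1.trans (le_max_left _ _), max_lt h2 (hg.trans hp.2), h3⟩
    · simp only [hst, hup, hg, decide_false, Bool.false_eq_true, if_false]
      push Not at hg
      exact ⟨h1, lt_min h2 (hp.1.trans_le hg), (min_le_left _ _).trans h3⟩

lemma hst_nested (l' l : List ℝ) :
    (hst lam τ u l).2.1 ≤ (hst lam τ u (l' ++ l)).2.1 ∧
      (hst lam τ u (l' ++ l)).2.2 ≤ (hst lam τ u l).2.2 := by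
  induction l' with
  | nil => exact ⟨le_refl _, le_refl _⟩
  | cons g l' ih =>
    obtain ⟨h1, h2⟩ := ih
    by_cases hg : g < p0 lam τ u (hst lam τ u (l' ++ l))
    · simp only [List.cons_append, hst, hup, hg, decide_true, if_true]
      exact ⟨h1.trans (le_max_left _ _), h2⟩
    · simp only [List.cons_append, hst, hup, hg, decide_false, Bool.false_eq_true, if_false]
      exact ⟨h1, (min_le_left _ _).trans h2⟩

lemma hst_lt {l : List ℝ} {g : ℝ} (hg : g < p0 lam τ u (hst lam τ u l)) (l' : List ℝ) :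
    g ≤ (hst lam τ u (l' ++ g :: l)).2.1 := by
  refine le_trans ?_ (hst_nested l' (g :: l)).1
  simp only [hst, hup, hg, decide_true, if_true]
  exact le_max_right _ _

lemma hst_gt {l : List ℝ} {g : ℝ} (hg : p0 lam τ u (hst lam τ u l) < g) (l' : List ℝ) :
    (hst lam τ u (l' ++ g :: l)).2.2 ≤ g := by
  refine le_trans (hst_nested l' (g :: l)).2 ?_
  have : ¬ g < p0 lam τ u (hst lam τ u l) := not_lt.2 hg.le
  simp only [hst, hup, this, decide_false, Bool.false_eq_true, if_false]
  exact min_le_right _ _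

/-- The position is in the interval of a state of a final segment. -/
lemma hid_mem (hl : ∀ k, lam k ∈ Ioo (0 : ℝ) 1) (hτ : τ ∈ Ioo (0 : ℝ) 1)
    (hu : u ∈ Ioo (0 : ℝ) 1) (N : ℕ) (l : List ℝ) :
    hid lam δ τ u N l ∈ Ioo (hst lam τ u (l.drop (l.length - N))).2.1
      (hst lam τ u (l.drop (l.length - N))).2.2 := by
  unfold hid
  split_ifs with h
  · have : l.length - N = 0 := by lia
    rw [this, List.drop_zero]
    exact p0_mem hl hτ hu (hst_mem hl hτ hu l).2.1
  · exact p1_mem hτ hu (hst_mem hl hτ hu _).2.1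

theorem hid_isHider (hl : ∀ k, lam k ∈ Ioo (0 : ℝ) 1) (hτ : τ ∈ Ioo (0 : ℝ) 1)
    (hu : u ∈ Ioo (0 : ℝ) 1) (N : ℕ) : IsHider (hid lam δ τ u N) := by
  constructor
  · intro l
    have h := hid_mem (δ := δ) hl hτ hu N l
    have h2 := hst_mem hl hτ hu (l.drop (l.length - N))
    exact ⟨h2.1.trans h.1.le, h.2.le.trans h2.2.2⟩
  · intro l l' g
    rcases lt_or_ge l.length N with hN | hN
    · -- before the time `N`
      have e0 : hid lam δ τ u N l = p0 lam τ u (hst lam τ u l) := if_pos hN
      have hm := hid_mem (δ := δ) hl hτ hu N (l' ++ g :: l)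
      have hlen : (l' ++ g :: l).length - N ≤ l'.length := by
        simp only [List.length_append, List.length_cons]
        lia
      rw [List.drop_append_of_le_length hlen] at hm
      constructor
      · intro h
        rw [e0] at h
        exact (hst_lt h _).trans_lt hm.1
      · intro h
        rw [e0] at h
        exact hm.2.trans_le (hst_gt h _)
    · have e0 : hid lam δ τ u N (l' ++ g :: l) = hid lam δ τ u N l := by
        unfold hid
        have h1 : ¬ (l' ++ g :: l).length < N := by
          simp only [List.length_append, List.length_cons]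
          lia
        rw [if_neg h1, if_neg (not_lt.2 hN)]
        congr 2
        have e1 : l' ++ g :: l = (l' ++ [g]) ++ l := by simp
        rw [e1, List.length_append]
        have e2 : (l' ++ [g]).length + l.length - N = (l' ++ [g]).length + (l.length - N) := by
          lia
        rw [e2, List.drop_append]
        simp
      rw [e0]
      exact ⟨fun h => h, fun h => h⟩

/-- The cost of the guesses against `x`. -/
noncomputable def cost (l : List ℝ) (x : ℝ) : ℝ := (l.map fun g => |g - x|).sum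

lemma cost_nil (x : ℝ) : cost [] x = 0 := rfl

lemma cost_cons (g : ℝ) (l : List ℝ) (x : ℝ) : cost (g :: l) x = |g - x| + cost l x := by
  unfold cost
  simp

lemma cost_nonneg (l : List ℝ) (x : ℝ) : 0 ≤ cost l x := by
  induction l with
  | nil => exact le_refl _
  | cons g l ih => rw [cost_cons]; positivity

/-- The main invariant. -/
theorem invariant {v : ℝ} {w : ℤ → ℝ} (hl : ∀ k, lam k ∈ Ioo (0 : ℝ) 1)
    (hw : Vals lam v w) (hv : 0 ≤ v) (hτ : τ ∈ Ioo (0 : ℝ) 1) (hu : u ∈ Ioo (0 : ℝ) 1) (N : ℕ)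
    (l : List ℝ) (hN : l.length ≤ N) :
    ∃ c, (∀ x ∈ Icc (hst lam τ u l).2.1 (hst lam τ u l).2.2,
        cost l x = c + (hst lam τ u l).1 * (x - (hst lam τ u l).2.1) ∧
        l.length * min (x - (hst lam τ u l).2.1) ((hst lam τ u l).2.2 - x) ≤ cost l x) ∧
      v - l.length * (τ * (v + 1 + N)) ≤
        c + ((hst lam τ u l).2.2 - (hst lam τ u l).2.1) * w (hst lam τ u l).1 ∧
      |((hst lam τ u l).1 : ℝ)| ≤ l.length := by
  induction l with
  | nil =>
    refine ⟨0, fun x hx => ?_, ?_, ?_⟩
    · simp [cost_nil, hst]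
    · simp [hst, hw.zero]
    · simp [hst]
  | cons g l ih =>
    have hN' : l.length ≤ N := by
      simp only [List.length_cons] at hN
      lia
    obtain ⟨c, hc, hv1, hk⟩ := ih hN'
    obtain ⟨ha, hab, hb⟩ := hst_mem hl hτ hu l
    have hp := p0_mem hl hτ hu hab
    obtain ⟨h0, h1⟩ := hl (hst lam τ u l).1
    set a := (hst lam τ u l).2.1 with ha'
    set b := (hst lam τ u l).2.2 with hb'
    set k := (hst lam τ u l).1 with hk'
    have hup' := hw.up k
    have hdown := hw.down k
    have hlN : (l.length : ℝ) ≤ N := by exact_mod_cast hN'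
    have hlen0 : (0 : ℝ) ≤ l.length := Nat.cast_nonneg _
    have hlen : ((g :: l).length : ℝ) = l.length + 1 := by simp
    by_cases hg : g < p0 lam τ u (hst lam τ u l)
    · have e : hst lam τ u (g :: l) = (k + 1, max a g, b) := by
        simp only [hst, hup, hg, decide_true, if_true, ← ha', ← hb', ← hk']
      rw [e]
      simp only
      have hm1 : a ≤ max a g := le_max_left _ _
      have hm2 : g ≤ max a g := le_max_right _ _
      have hm3 : max a g < b := max_lt hab (hg.trans hp.2)
      refine ⟨c + k * (max a g - a) + (max a g - g), fun x hx => ?_, ?_, ?_⟩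
      · obtain ⟨e1, e2⟩ := hc x ⟨hm1.trans hx.1, hx.2⟩
        have hgx : |g - x| = x - g := by
          rw [abs_sub_comm, abs_of_nonneg]
          linarith [hx.1]
        rw [cost_cons, hgx, e1, hlen]
        refine ⟨by push_cast; ring, ?_⟩
        rw [← e1]
        have h3 : min (x - max a g) (b - x) ≤ min (x - a) (b - x) :=
          min_le_min_right _ (by linarith)
        have h4 : min (x - max a g) (b - x) ≤ x - g := (min_le_left _ _).trans (by linarith)
        have h5 := mul_le_mul_of_nonneg_left h3 hlen0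
        nlinarith
      · -- the potential
        have hwk1 : 0 ≤ w (k + 1) - k := by
          have := hw.ge (k + 1)
          push_cast at this
          linarith
        have hwk2 : w (k + 1) - k ≤ v + 1 + N := by
          rcases le_or_gt 0 k with hk0 | hk0
          · have := hw.le_of_nonneg hl (by lia : 0 ≤ k + 1)
            push_cast at this
            have : (0 : ℝ) ≤ N := Nat.cast_nonneg _
            linarith
          · have := hw.le_of_nonpos hl (by lia : k + 1 ≤ 0)
            have h6 := neg_abs_le (k : ℝ)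
            linarith
        have hpe : p0 lam τ u (hst lam τ u l) = a + (b - a) * (1 - lam k) + (b - a) * lam k * τ * u :=
          rfl
        have key : -(τ * (v + 1 + N)) ≤
            (a + (b - a) * (1 - lam k) - max a g) * (w (k + 1) - k) := by
          have hge : -τ ≤ a + (b - a) * (1 - lam k) - max a g := by
            have hs : 0 ≤ (b - a) * lam k * τ * u := by
              have := hτ.1; have := hu.1
              have : 0 < b - a := by linarith
              positivity
            have hs2 : (b - a) * lam k * τ * u ≤ τ := by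
              have q1 : (b - a) * lam k ≤ 1 := by nlinarith
              have q2 : τ * u ≤ τ := by nlinarith [hτ.1, hu.2]
              have q3 : 0 ≤ τ * u := mul_nonneg hτ.1.le hu.1.le
              have q4 : (b - a) * lam k * (τ * u) ≤ 1 * (τ * u) :=
                mul_le_mul_of_nonneg_right q1 q3
              nlinarith
            rcases le_total a g with hag | hag
            · rw [max_eq_right hag]
              rw [hpe] at hg
              linarith
            · rw [max_eq_left hag]
              have : 0 ≤ (b - a) * (1 - lam k) := mul_nonneg (by linarith) (by linarith)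
              linarith [hτ.1]
          have q5 : -τ * (w (k + 1) - k) ≤
              (a + (b - a) * (1 - lam k) - max a g) * (w (k + 1) - k) :=
            mul_le_mul_of_nonneg_right hge hwk1
          have q6 : τ * (w (k + 1) - k) ≤ τ * (v + 1 + N) :=
            mul_le_mul_of_nonneg_left hwk2 hτ.1.le
          linarith
        rw [hlen]
        have e3 : c + k * (max a g - a) + (max a g - g) + (b - max a g) * w (k + 1) =
            c + (b - a) * w k + (a + (b - a) * (1 - lam k) - max a g) * (w (k + 1) - k) +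
              (max a g - g) := by
          rw [hup']; ring
        rw [e3]
        nlinarith
      · rw [hlen]
        push_cast
        have := abs_add_le (k : ℝ) 1
        rw [abs_one] at this
        linarith
    · have e : hst lam τ u (g :: l) = (k - 1, a, min b g) := by
        simp only [hst, hup, hg, decide_false, Bool.false_eq_true, if_false, ← ha', ← hb', ← hk']
      rw [e]
      simp only
      push Not at hg
      have hm1 : min b g ≤ b := min_le_left _ _
      have hm2 : min b g ≤ g := min_le_right _ _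
      have hm3 : a < min b g := lt_min hab (hp.1.trans_le hg)
      refine ⟨c + g - a, fun x hx => ?_, ?_, ?_⟩
      · obtain ⟨e1, e2⟩ := hc x ⟨hx.1, hx.2.trans hm1⟩
        have hgx : |g - x| = g - x := by
          rw [abs_of_nonneg]
          linarith [hx.2]
        rw [cost_cons, hgx, e1, hlen]
        refine ⟨by push_cast; ring, ?_⟩
        rw [← e1]
        have h3 : min (x - a) (min b g - x) ≤ min (x - a) (b - x) :=
          min_le_min_left _ (by linarith)
        have h4 : min (x - a) (min b g - x) ≤ g - x := (min_le_right _ _).trans (by linarith)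
        have h5 := mul_le_mul_of_nonneg_left h3 hlen0
        nlinarith
      · have hwn := hw.nonneg (k - 1)
        have hpe : p0 lam τ u (hst lam τ u l) = a + (b - a) * (1 - lam k) + (b - a) * lam k * τ * u :=
          rfl
        have hs : 0 ≤ (b - a) * lam k * τ * u := by
          have := hτ.1; have := hu.1
          have : 0 < b - a := by linarith
          positivity
        have hge : a + (b - a) * (1 - lam k) ≤ min b g := by
          refine le_min ?_ ?_
          · nlinarith [mul_pos (sub_pos.2 hab) h0]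
          · rw [hpe] at hg
            linarith
        rw [hlen]
        have e3 : c + (b - a) * w k = c + ((b - a) * (1 - lam k)) * (1 + w (k - 1)) := by
          rw [hdown]; ring
        have q1 : ((b - a) * (1 - lam k)) * (1 + w (k - 1)) ≤ (min b g - a) * (1 + w (k - 1)) :=
          mul_le_mul_of_nonneg_right (by linarith) (by linarith)
        have q2 : 0 ≤ τ * (v + 1 + N) := mul_nonneg hτ.1.le (by positivity)
        nlinarith
      · rw [hlen]
        push_cast
        have := abs_sub (k : ℝ) 1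
        rw [abs_one] at this
        linarith

/-- The cost of the first `N` guesses against the final position. -/
theorem final_cost {v ε : ℝ} {w : ℤ → ℝ} (hl : ∀ k, lam k ∈ Ioo (0 : ℝ) 1)
    (hw : Vals lam v w) (hv : 0 ≤ v) (hτ : τ ∈ Ioo (0 : ℝ) 1) (hu : u ∈ Ioo (0 : ℝ) 1) {N : ℕ}
    (hδ : δ * (v + 1) ≤ ε / 3) (hδ0 : 0 < δ) (hNδ : v ≤ N * (δ / 4))
    (hτN : N * (τ * (v + 1 + N)) ≤ ε / 3) (hε : 0 < ε)
    {l : List ℝ} (hN : l.length = N) :
    v - ε ≤ cost l (p1 δ τ u (hst lam τ u l)) := by
  obtain ⟨c, hc, hv1, hk⟩ := invariant hl hw hv hτ hu N l hN.le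
  obtain ⟨ha, hab, hb⟩ := hst_mem hl hτ hu l
  have hm := p1_mem (δ := δ) hτ hu hab
  obtain ⟨e1, e2⟩ := hc _ ⟨hm.1.le, hm.2.le⟩
  rw [hN] at e2 hv1 hk
  set a := (hst lam τ u l).2.1 with ha'
  set b := (hst lam τ u l).2.2 with hb'
  set k := (hst lam τ u l).1 with hk'
  have htu0 : 0 < τ * u := mul_pos hτ.1 hu.1
  have htu1 : τ * u ≤ τ := by nlinarith [hτ.1, hu.2]
  have hba : b - a ≤ 1 := by linarith
  have hba0 : 0 < b - a := by linarith
  have hNn : (0 : ℝ) ≤ N := Nat.cast_nonneg _
  have hsmall : N * τ ≤ ε / 3 := by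
    refine le_trans ?_ hτN
    have : τ * 1 ≤ τ * (v + 1 + N) := mul_le_mul_of_nonneg_left (by linarith) hτ.1.le
    have := mul_le_mul_of_nonneg_left this hNn
    linarith
  have hδv : δ * v ≤ ε / 3 := by nlinarith
  by_cases hd : δ ≤ b - a
  · -- long interval
    have hp : p1 δ τ u (hst lam τ u l) = a + (b - a) * (1 / 2) + (b - a) * (1 / 4) * τ * u := by
      unfold p1 pos1 slo1
      rw [if_pos hd, if_pos hd]
    have hmin : δ / 4 ≤ min (p1 δ τ u (hst lam τ u l) - a) (b - p1 δ τ u (hst lam τ u l)) := by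
      rw [hp]
      have q : (b - a) * (τ * u) ≤ (b - a) * 1 :=
        mul_le_mul_of_nonneg_left (by linarith [hτ.2]) hba0.le
      have q0 : 0 < (b - a) * (τ * u) := mul_pos hba0 htu0
      refine le_min ?_ ?_
      · nlinarith
      · nlinarith
    have := mul_le_mul_of_nonneg_left hmin hNn
    linarith
  · push Not at hd
    by_cases hk0 : 0 ≤ k
    · have hp : p1 δ τ u (hst lam τ u l) = b - (b - a) * τ * u := by
        unfold p1 pos1 slo1
        rw [if_neg (not_le.2 hd), if_neg (not_le.2 hd), if_pos hk0, if_pos hk0]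
        ring
      rw [e1, hp]
      have hwk := hw.le_of_nonneg hl hk0
      have hkn : (0 : ℝ) ≤ k := by exact_mod_cast hk0
      have hkN : (k : ℝ) ≤ N := (le_abs_self _).trans hk
      have q1 : (b - a) * (w k - k) ≤ (b - a) * v :=
        mul_le_mul_of_nonneg_left (by linarith) hba0.le
      have q2 : (b - a) * v ≤ δ * v := mul_le_mul_of_nonneg_right hd.le hv
      have q3 : k * ((b - a) * (τ * u)) ≤ N * τ := by
        have r1 : (b - a) * (τ * u) ≤ 1 * τ :=
          mul_le_mul hba htu1 htu0.le zero_le_one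
        have r0 : 0 ≤ (b - a) * (τ * u) := (mul_pos hba0 htu0).le
        calc k * ((b - a) * (τ * u)) ≤ N * ((b - a) * (τ * u)) :=
              mul_le_mul_of_nonneg_right hkN r0
          _ ≤ N * (1 * τ) := mul_le_mul_of_nonneg_left r1 hNn
          _ = N * τ := by ring
      nlinarith
    · have hp : p1 δ τ u (hst lam τ u l) = a + (b - a) * τ * u := by
        unfold p1 pos1 slo1
        rw [if_neg (not_le.2 hd), if_neg (not_le.2 hd), if_neg hk0, if_neg hk0]
      rw [e1, hp]
      push Not at hk0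
      have hwk := hw.le_of_nonpos hl hk0.le
      have hkn : (k : ℝ) ≤ 0 := by exact_mod_cast hk0.le
      have hkN : -(k : ℝ) ≤ N := (neg_le_abs _).trans hk
      have q1 : (b - a) * w k ≤ (b - a) * v := mul_le_mul_of_nonneg_left hwk hba0.le
      have q2 : (b - a) * v ≤ δ * v := mul_le_mul_of_nonneg_right hd.le hv
      have q3 : (-k) * ((b - a) * (τ * u)) ≤ N * τ := by
        have r1 : (b - a) * (τ * u) ≤ 1 * τ :=
          mul_le_mul hba htu1 htu0.le zero_le_one
        have r0 : 0 ≤ (b - a) * (τ * u) := (mul_pos hba0 htu0).le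
        calc (-k) * ((b - a) * (τ * u)) ≤ N * ((b - a) * (τ * u)) :=
              mul_le_mul_of_nonneg_right hkN r0
          _ ≤ N * (1 * τ) := mul_le_mul_of_nonneg_left r1 hNn
          _ = N * τ := by ring
      nlinarith

end basic

end Pool.Agent.Q215.Alp
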