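import Pool.Agent.Q215.Alp.Hider

/-!
# The two guarantees
-/

namespace Pool.Agent.Q215.Alp

open Set Filter Topology MeasureTheory
open scoped ENNReal

variable {lam : ℤ → ℝ}

section play

variable (G : List Bool → ℝ) (H : List ℝ → ℝ)

lemma play_len (n : ℕ) : (play G H n).1.length = n := by
  induction n with
  | zero => rfl
  | succ n ih => simp only [play, List.length_cons, ih]

lemma play_len' (n : ℕ) : (play G H n).2.length = n := by
  induction n with
  | zero => rfl
  | succ n ih => simp only [play, List.length_cons, ih]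

lemma play_drop (N m : ℕ) : (play G H (N + m)).1.drop m = (play G H N).1 := by
  induction m with
  | zero => rfl
  | succ m ih =>
    rw [← add_assoc]
    simp only [play, List.drop_succ_cons]
    exact ih

lemma play_drop' (N m : ℕ) : (play G H (N + m)).2.drop m = (play G H N).2 := by
  induction m with
  | zero => rfl
  | succ m ih =>
    rw [← add_assoc]
    simp only [play, List.drop_succ_cons]
    exact ih

lemma play_suffix (n m : ℕ) : ∃ l', (play G H (n + 1 + m)).1 =
    l' ++ guessAt G H n :: (play G H n).1 := by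
  induction m with
  | zero => exact ⟨[], rfl⟩
  | succ m ih =>
    obtain ⟨l', h⟩ := ih
    refine ⟨G (play G H (n + 1 + m)).2 :: l', ?_⟩
    rw [← add_assoc]
    simp only [play, List.cons_append, h]

lemma sum_cost (x : ℝ) (N : ℕ) :
    ∑ n ∈ Finset.range N, ENNReal.ofReal |guessAt G H n - x| =
      ENNReal.ofReal (cost (play G H N).1 x) := by
  induction N with
  | zero => simp [play, cost_nil]
  | succ N ih =>
    rw [Finset.sum_range_succ, ih]
    simp only [play, cost_cons]
    rw [← ENNReal.ofReal_add (cost_nonneg _ _) (abs_nonneg _), add_comm]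
    rfl

end play

section hider

variable {δ τ u : ℝ}

lemma posAt_of_lt (G : List Bool → ℝ) {N n : ℕ} (h : n < N) :
    posAt G (hid lam δ τ u N) n = p0 lam τ u (hst lam τ u (play G (hid lam δ τ u N) n).1) := by
  unfold posAt
  nth_rewrite 1 [hid]
  rw [play_len, if_pos h]

lemma posAt_of_ge (G : List Bool → ℝ) (N m : ℕ) :
    posAt G (hid lam δ τ u N) (N + m) =
      p1 δ τ u (hst lam τ u (play G (hid lam δ τ u N) N).1) := by
  unfold posAt
  nth_rewrite 1 [hid]
  rw [play_len, if_neg (by lia), Nat.add_sub_cancel_left, play_drop]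

theorem pay_ge {v ε : ℝ} {w : ℤ → ℝ} (hl : ∀ k, lam k ∈ Ioo (0 : ℝ) 1)
    (hw : Vals lam v w) (hv : 0 ≤ v) (hτ : τ ∈ Ioo (0 : ℝ) 1) (hu : u ∈ Ioo (0 : ℝ) 1) {N : ℕ}
    (hδ : δ * (v + 1) ≤ ε / 3) (hδ0 : 0 < δ) (hNδ : v ≤ N * (δ / 4))
    (hτN : N * (τ * (v + 1 + N)) ≤ ε / 3) (hε : 0 < ε) (G : List Bool → ℝ) :
    ENNReal.ofReal (v - ε) ≤ pay G (hid lam δ τ u N) := by
  unfold pay
  refine le_iInf fun l => le_iInf fun hlim => ?_
  have hconst : Tendsto (posAt G (hid lam δ τ u N)) atTop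
      (𝓝 (p1 δ τ u (hst lam τ u (play G (hid lam δ τ u N) N).1))) := by
    refine tendsto_const_nhds.congr' ?_
    filter_upwards [eventually_ge_atTop N] with n hn
    obtain ⟨m, rfl⟩ := Nat.exists_eq_add_of_le hn
    rw [posAt_of_ge]
  rw [tendsto_nhds_unique hlim hconst]
  have h1 := final_cost hl hw hv hτ hu hδ hδ0 hNδ hτN hε
    (play_len G (hid lam δ τ u N) N)
  calc ENNReal.ofReal (v - ε) ≤ ENNReal.ofReal _ := ENNReal.ofReal_le_ofReal h1
    _ = _ := (sum_cost G (hid lam δ τ u N) _ N).symm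
    _ ≤ _ := ENNReal.sum_le_tsum _

/-- The state as a function of the answers. -/
noncomputable def stA (G : List Bool → ℝ) : List Bool → ℤ × ℝ × ℝ
  | [] => (0, 0, 1)
  | b :: s => hup (stA G s) (G s) b

lemma hst_eq_stA (G : List Bool → ℝ) {N n : ℕ} (h : n ≤ N) :
    hst lam τ u (play G (hid lam δ τ u N) n).1 = stA G (play G (hid lam δ τ u N) n).2 := by
  induction n with
  | zero => rfl
  | succ n ih =>
    have ih' := ih (by lia)
    have hp := posAt_of_lt (lam := lam) (δ := δ) (τ := τ) (u := u) G (show n < N by lia)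
    unfold posAt at hp
    simp only [play, hst, stA]
    rw [hp, ih']

lemma tie_lt (hl : ∀ k, lam k ∈ Ioo (0 : ℝ) 1) (hτ : τ ∈ Ioo (0 : ℝ) 1)
    (hu : u ∈ Ioo (0 : ℝ) 1) (G : List Bool → ℝ) {N n : ℕ} (h : n < N)
    (ht : guessAt G (hid lam δ τ u N) n = posAt G (hid lam δ τ u N) n) :
    (G (play G (hid lam δ τ u N) n).2 - pos0 lam (stA G (play G (hid lam δ τ u N) n).2)) /
      slo0 lam τ (stA G (play G (hid lam δ τ u N) n).2) = u := by
  rw [posAt_of_lt G h] at ht
  have hm := (hst_mem hl hτ hu (play G (hid lam δ τ u N) n).1).2.1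
  rw [hst_eq_stA G h.le] at ht hm
  unfold guessAt p0 at ht
  rw [ht]
  have h0 := (hl (stA G (play G (hid lam δ τ u N) n).2).1).1
  have : 0 < slo0 lam τ (stA G (play G (hid lam δ τ u N) n).2) := by
    unfold slo0
    exact mul_pos (mul_pos (by linarith) h0) hτ.1
  rw [div_eq_iff this.ne']
  ring

lemma slo1_ne (hτ : τ ∈ Ioo (0 : ℝ) 1) {σ : ℤ × ℝ × ℝ} (h : σ.2.1 < σ.2.2) :
    slo1 δ τ σ ≠ 0 := by
  have h1 : 0 < (σ.2.2 - σ.2.1) * τ := mul_pos (by linarith) hτ.1
  unfold slo1
  split_ifs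
  · have : 0 < (σ.2.2 - σ.2.1) * (1 / 4) * τ := by nlinarith
    exact this.ne'
  · exact (neg_lt_zero.2 h1).ne
  · exact h1.ne'

lemma tie_ge (hl : ∀ k, lam k ∈ Ioo (0 : ℝ) 1) (hτ : τ ∈ Ioo (0 : ℝ) 1)
    (hu : u ∈ Ioo (0 : ℝ) 1) (G : List Bool → ℝ) {N n : ℕ} (h : N ≤ n)
    (ht : guessAt G (hid lam δ τ u N) n = posAt G (hid lam δ τ u N) n) :
    (G (play G (hid lam δ τ u N) n).2 - pos1 δ (stA G
      ((play G (hid lam δ τ u N) n).2.drop ((play G (hid lam δ τ u N) n).2.length - N)))) /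
      slo1 δ τ (stA G ((play G (hid lam δ τ u N) n).2.drop
        ((play G (hid lam δ τ u N) n).2.length - N))) = u := by
  obtain ⟨m, rfl⟩ := Nat.exists_eq_add_of_le h
  rw [posAt_of_ge] at ht
  rw [play_len', Nat.add_sub_cancel_left, play_drop']
  have hm := (hst_mem hl hτ hu (play G (hid lam δ τ u N) N).1).2.1
  rw [hst_eq_stA G (le_refl N)] at ht hm
  unfold guessAt p1 at ht
  rw [ht, div_eq_iff (slo1_ne hτ hm)]
  ring

end hider

section meas

variable {Ω : Type*} [MeasurableSpace Ω]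

lemma meas_stA {G : Ω → List Bool → ℝ} (hG : ∀ s, Measurable fun ω => G ω s) (s : List Bool) :
    Measurable fun ω => stA (G ω) s := by
  induction s with
  | nil => exact measurable_const
  | cons b s ih =>
    have h1 : Measurable fun ω => (stA (G ω) s).1 := measurable_fst.comp ih
    have h2 : Measurable fun ω => (stA (G ω) s).2.1 := (measurable_fst.comp measurable_snd).comp ih
    have h3 : Measurable fun ω => (stA (G ω) s).2.2 := (measurable_snd.comp measurable_snd).comp ih
    cases b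
    · simp only [stA, hup, Bool.false_eq_true, if_false]
      refine Measurable.prodMk ?_ (h2.prodMk (h3.min (hG s)))
      exact (measurable_from_top (f := fun k : ℤ => k - 1)).comp h1
    · simp only [stA, hup, if_true]
      refine Measurable.prodMk ?_ ((h2.max (hG s)).prodMk h3)
      exact (measurable_from_top (f := fun k : ℤ => k + 1)).comp h1

lemma m1 : Measurable fun σ : ℤ × ℝ × ℝ => σ.2.1 := measurable_fst.comp measurable_snd

lemma m2 : Measurable fun σ : ℤ × ℝ × ℝ => σ.2.2 := measurable_snd.comp measurable_snd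

lemma mlam (lam : ℤ → ℝ) : Measurable fun σ : ℤ × ℝ × ℝ => lam σ.1 :=
  (measurable_from_top (f := lam)).comp measurable_fst

lemma meas_pos0 (lam : ℤ → ℝ) : Measurable (pos0 lam) := by
  unfold pos0
  exact m1.add ((m2.sub m1).mul (measurable_const.sub (mlam lam)))

lemma meas_slo0 (lam : ℤ → ℝ) (τ : ℝ) : Measurable (slo0 lam τ) := by
  unfold slo0
  exact ((m2.sub m1).mul (mlam lam)).mul_const _

lemma mset1 (δ : ℝ) : MeasurableSet {σ : ℤ × ℝ × ℝ | δ ≤ σ.2.2 - σ.2.1} :=
  measurableSet_le measurable_const (m2.sub m1)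

lemma mset2 : MeasurableSet {σ : ℤ × ℝ × ℝ | 0 ≤ σ.1} :=
  measurable_fst (show MeasurableSet {k : ℤ | 0 ≤ k} from trivial)

lemma meas_pos1 (δ : ℝ) : Measurable (pos1 δ) := by
  unfold pos1
  refine Measurable.ite (mset1 δ) (m1.add ((m2.sub m1).mul_const _)) ?_
  exact Measurable.ite mset2 m2 m1

lemma meas_slo1 (δ τ : ℝ) : Measurable (slo1 δ τ) := by
  unfold slo1
  refine Measurable.ite (mset1 δ) (((m2.sub m1).mul_const _).mul_const _) ?_
  exact Measurable.ite mset2 ((m2.sub m1).mul_const _).neg ((m2.sub m1).mul_const _)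

/-- **The hider's guarantee.** -/
theorem hider_guarantee {v : ℝ} (h : IsAlpern lam v) (P : Measure Ω) [IsProbabilityMeasure P]
    {G : Ω → List Bool → ℝ} (hG : ∀ s, Measurable fun ω => G ω s) {ε : ℝ} (hε : 0 < ε) :
    ∃ H, IsHider H ∧ ∀ᵐ ω ∂P, NoHit (G ω) H ∧ ENNReal.ofReal (v - ε) ≤ pay (G ω) H := by
  obtain ⟨w, hw⟩ := exists_vals h
  obtain ⟨hl, hv, -⟩ := h
  have hv1 : 0 < v + 1 := by linarith
  -- the parameters
  set δ := ε / (3 * (v + 1)) with hδ
  have hδ0 : 0 < δ := by positivity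
  have hδ1 : δ * (v + 1) ≤ ε / 3 := by
    rw [hδ]
    apply le_of_eq
    field_simp
  obtain ⟨N, hN⟩ := exists_nat_ge (v / (δ / 4))
  have hN' : v ≤ N * (δ / 4) := by
    rwa [div_le_iff₀ (by positivity)] at hN
  have hNn : (0 : ℝ) ≤ N := Nat.cast_nonneg _
  set τ := min (1 / 2) (ε / (3 * (N + 1) * (v + 1 + N))) with hτ
  have hq : 0 < 3 * ((N : ℝ) + 1) * (v + 1 + N) := by positivity
  have hτm : τ ∈ Ioo (0 : ℝ) 1 := by
    constructor
    · exact lt_min (by norm_num) (by positivity)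
    · exact (min_le_left _ _).trans_lt (by norm_num)
  have hτN : N * (τ * (v + 1 + N)) ≤ ε / 3 := by
    have h1 : τ ≤ ε / (3 * (N + 1) * (v + 1 + N)) := min_le_right _ _
    rw [le_div_iff₀ hq] at h1
    have h2 : 0 ≤ τ * (v + 1 + N) := mul_nonneg hτm.1.le (by positivity)
    nlinarith
  -- the exceptional values of `u`
  let X0 : List Bool → Ω → ℝ := fun s ω =>
    (G ω s - pos0 lam (stA (G ω) s)) / slo0 lam τ (stA (G ω) s)
  let X1 : List Bool → Ω → ℝ := fun s ω =>
    (G ω s - pos1 δ (stA (G ω) (s.drop (s.length - N)))) /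
      slo1 δ τ (stA (G ω) (s.drop (s.length - N)))
  have hX0 : ∀ s, Measurable (X0 s) := fun s =>
    ((hG s).sub ((meas_pos0 lam).comp (meas_stA hG s))).div
      ((meas_slo0 lam τ).comp (meas_stA hG s))
  have hX1 : ∀ s, Measurable (X1 s) := fun s =>
    ((hG s).sub ((meas_pos1 δ).comp (meas_stA hG _))).div
      ((meas_slo1 δ τ).comp (meas_stA hG _))
  have hcount : ((⋃ s, {t : ℝ | 0 < P {ω | X0 s ω = t}}) ∪
      (⋃ s, {t : ℝ | 0 < P {ω | X1 s ω = t}})).Countable :=
    (countable_iUnion fun s => Measure.countable_meas_level_set_pos (hX0 s)).union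
      (countable_iUnion fun s => Measure.countable_meas_level_set_pos (hX1 s))
  obtain ⟨u, hu, hum⟩ := (hcount.dense_compl ℝ).exists_between (zero_lt_one' ℝ)
  have hu0 : ∀ s, P {ω | X0 s ω = u} = 0 := by
    intro s
    by_contra hne
    exact hu (Or.inl (mem_iUnion.2 ⟨s, pos_iff_ne_zero.2 hne⟩))
  have hu1 : ∀ s, P {ω | X1 s ω = u} = 0 := by
    intro s
    by_contra hne
    exact hu (Or.inr (mem_iUnion.2 ⟨s, pos_iff_ne_zero.2 hne⟩))
  have hae : ∀ᵐ ω ∂P, ∀ s, X0 s ω ≠ u ∧ X1 s ω ≠ u := by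
    rw [ae_all_iff]
    intro s
    have a0 : ∀ᵐ ω ∂P, X0 s ω ≠ u := by
      rw [ae_iff]
      simpa using hu0 s
    have a1 : ∀ᵐ ω ∂P, X1 s ω ≠ u := by
      rw [ae_iff]
      simpa using hu1 s
    filter_upwards [a0, a1] with ω h0 h1 using ⟨h0, h1⟩
  refine ⟨hid lam δ τ u N, hid_isHider hl hτm hum N, ?_⟩
  filter_upwards [hae] with ω hω
  refine ⟨fun n ht => ?_, pay_ge hl hw hv hτm hum hδ1 hδ0 hN' hτN hε (G ω)⟩
  rcases lt_or_ge n N with hn | hn
  · exact (hω _).1 (tie_lt hl hτm hum (G ω) hn ht)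
  · exact (hω _).2 (tie_ge hl hτm hum (G ω) hn ht)

/-- **The hider's guarantee, one family of strategies for all the searchers.** -/
theorem hider_uniform {v : ℝ} (h : IsAlpern lam v) {ε : ℝ} (hε : 0 < ε) :
    ∃ H : ℝ → List ℝ → ℝ, (∀ u ∈ Ioo (0 : ℝ) 1, IsHider (H u)) ∧
      ∀ G : List Bool → ℝ, ∃ C : Set ℝ, C.Countable ∧ ∀ u ∈ Ioo (0 : ℝ) 1, u ∉ C →
        NoHit G (H u) ∧ ENNReal.ofReal (v - ε) ≤ pay G (H u) := by
  obtain ⟨w, hw⟩ := exists_vals h
  obtain ⟨hl, hv, -⟩ := h
  have hv1 : 0 < v + 1 := by linarith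
  set δ := ε / (3 * (v + 1)) with hδ
  have hδ0 : 0 < δ := by positivity
  have hδ1 : δ * (v + 1) ≤ ε / 3 := by
    rw [hδ]
    apply le_of_eq
    field_simp
  obtain ⟨N, hN⟩ := exists_nat_ge (v / (δ / 4))
  have hN' : v ≤ N * (δ / 4) := by
    rwa [div_le_iff₀ (by positivity)] at hN
  have hNn : (0 : ℝ) ≤ N := Nat.cast_nonneg _
  set τ := min (1 / 2) (ε / (3 * (N + 1) * (v + 1 + N))) with hτ
  have hq : 0 < 3 * ((N : ℝ) + 1) * (v + 1 + N) := by positivity
  have hτm : τ ∈ Ioo (0 : ℝ) 1 := by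
    constructor
    · exact lt_min (by norm_num) (by positivity)
    · exact (min_le_left _ _).trans_lt (by norm_num)
  have hτN : N * (τ * (v + 1 + N)) ≤ ε / 3 := by
    have h1 : τ ≤ ε / (3 * (N + 1) * (v + 1 + N)) := min_le_right _ _
    rw [le_div_iff₀ hq] at h1
    have h2 : 0 ≤ τ * (v + 1 + N) := mul_nonneg hτm.1.le (by positivity)
    nlinarith
  refine ⟨fun u => hid lam δ τ u N, fun u hu => hid_isHider hl hτm hu N, fun G => ?_⟩
  refine ⟨(range fun s => (G s - pos0 lam (stA G s)) / slo0 lam τ (stA G s)) ∪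
    range fun s => (G s - pos1 δ (stA G (s.drop (s.length - N)))) /
      slo1 δ τ (stA G (s.drop (s.length - N))),
    (countable_range _).union (countable_range _), fun u hu hC => ⟨fun n ht => ?_,
      pay_ge hl hw hv hτm hu hδ1 hδ0 hN' hτN hε G⟩⟩
  rcases lt_or_ge n N with hn | hn
  · exact hC (Or.inl ⟨_, tie_lt hl hτm hu G hn ht⟩)
  · exact hC (Or.inr ⟨_, tie_ge hl hτm hu G hn ht⟩)

end meas

/-! ### The guarantee of Alpern's strategy -/

section searcher

variable {H : List ℝ → ℝ}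

/-- State after `n` guesses. -/
noncomputable def sg (lam : ℤ → ℝ) (H : List ℝ → ℝ) (n : ℕ) : ℤ × ℝ × ℝ :=
  st lam (0, 0, 1) (play (alpern lam) H n).2

lemma guessAt_eq (n : ℕ) : guessAt (alpern lam) H n = guess lam (sg lam H n) := rfl

lemma sg_true {n : ℕ} (h : guess lam (sg lam H n) < posAt (alpern lam) H n) :
    sg lam H (n + 1) = ((sg lam H n).1 + 1, guess lam (sg lam H n), (sg lam H n).2.2) := by
  have h' : alpern lam (play (alpern lam) H n).2 < H (play (alpern lam) H n).1 := h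
  simp only [sg, play, st, h', decide_true, upd, if_true]

lemma sg_false {n : ℕ} (h : ¬ guess lam (sg lam H n) < posAt (alpern lam) H n) :
    sg lam H (n + 1) = ((sg lam H n).1 - 1, (sg lam H n).2.1, guess lam (sg lam H n)) := by
  have h' : ¬ alpern lam (play (alpern lam) H n).2 < H (play (alpern lam) H n).1 := h
  simp only [sg, play, st, h', decide_false, upd, Bool.false_eq_true, if_false]

lemma sg_mem (hl : ∀ k, lam k ∈ Ioo (0 : ℝ) 1) (n : ℕ) :
    0 ≤ (sg lam H n).2.1 ∧ (sg lam H n).2.1 < (sg lam H n).2.2 ∧ (sg lam H n).2.2 ≤ 1 :=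
  st_mem hl (σ := (0, 0, 1)) one_pos _

lemma sg_mono (hl : ∀ k, lam k ∈ Ioo (0 : ℝ) 1) : Monotone fun n => (sg lam H n).2.1 := by
  refine monotone_nat_of_le_succ fun n => ?_
  by_cases h : guess lam (sg lam H n) < posAt (alpern lam) H n
  · rw [sg_true h]
    exact (guess_mem hl (sg_mem hl n).2.1).1.le
  · rw [sg_false h]

lemma sg_anti (hl : ∀ k, lam k ∈ Ioo (0 : ℝ) 1) : Antitone fun n => (sg lam H n).2.2 := by
  refine antitone_nat_of_succ_le fun n => ?_
  by_cases h : guess lam (sg lam H n) < posAt (alpern lam) H n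
  · rw [sg_true h]
  · rw [sg_false h]
    exact (guess_mem hl (sg_mem hl n).2.1).2.le

/-- The hidden number stays in the interval. -/
lemma pos_mem (hH : IsHider H) (hno : NoHit (alpern lam) H) (n m : ℕ) :
    posAt (alpern lam) H (n + m) ∈ Icc (sg lam H n).2.1 (sg lam H n).2.2 := by
  induction n generalizing m with
  | zero => exact hH.1 _
  | succ n ih =>
    have h1 := ih (1 + m)
    rw [← add_assoc] at h1
    obtain ⟨l', hl'⟩ := play_suffix (alpern lam) H n m
    have h2 := hH.2 (play (alpern lam) H n).1 l' (guessAt (alpern lam) H n)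
    rw [← hl'] at h2
    by_cases h : guess lam (sg lam H n) < posAt (alpern lam) H n
    · rw [sg_true h]
      exact ⟨(h2.1 h).le, h1.2⟩
    · rw [sg_false h]
      have h3 : posAt (alpern lam) H n < guessAt (alpern lam) H n :=
        lt_of_le_of_ne (not_lt.1 h) (fun e => hno n e.symm)
      exact ⟨h1.1, (h2.2 h3).le⟩

/-- The static play against a number which is in the interval after `N` guesses. -/
lemma agree (hl : ∀ k, lam k ∈ Ioo (0 : ℝ) 1) {N : ℕ} {x : ℝ}
    (hx : x ∈ Ioo (sg lam H N).2.1 (sg lam H N).2.2) {n : ℕ} (hn : n ≤ N) :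
    (F lam x)^[n] (0, 0, 1) = sg lam H n := by
  induction n with
  | zero => rfl
  | succ n ih =>
    rw [Function.iterate_succ_apply', ih (by lia)]
    by_cases h : guess lam (sg lam H n) < posAt (alpern lam) H n
    · have h1 : (sg lam H (n + 1)).2.1 ≤ (sg lam H N).2.1 := sg_mono hl hn
      rw [sg_true h] at h1
      rw [F_true (h1.trans_lt hx.1), sg_true h]
    · have h1 : (sg lam H N).2.2 ≤ (sg lam H (n + 1)).2.2 := sg_anti hl hn
      rw [sg_false h] at h1
      rw [F_false (not_lt.2 (hx.2.le.trans h1)), sg_false h]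

lemma T_eq {v : ℝ} (h : IsAlpern lam v) {x : ℝ} (hx : x ∈ Icc (0 : ℝ) 1) (hN : NT lam 0 x) :
    T lam (0, 0, 1) x = ENNReal.ofReal v := by
  rw [← spay_eq]
  exact h.2.2 x hx hN

/-- **The guarantee of Alpern's strategy against a mobile hider.** -/
theorem searcher_guarantee {v : ℝ} (h : IsAlpern lam v) (hH : IsHider H)
    (hno : NoHit (alpern lam) H) : pay (alpern lam) H ≤ ENNReal.ofReal v := by
  have hl := h.1
  have hv := h.2.1
  have hmono := sg_mono (lam := lam) (H := H) hl
  have hanti := sg_anti (lam := lam) (H := H) hl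
  have hmem := sg_mem (lam := lam) (H := H) hl
  have hba : BddAbove (range fun n => (sg lam H n).2.1) :=
    ⟨1, by rintro _ ⟨n, rfl⟩; exact (hmem n).2.1.le.trans (hmem n).2.2⟩
  have hbb : BddBelow (range fun n => (sg lam H n).2.2) :=
    ⟨0, by rintro _ ⟨n, rfl⟩; exact (hmem n).1.trans (hmem n).2.1.le⟩
  have hta := tendsto_atTop_ciSup hmono hba
  have htb := tendsto_atTop_ciInf hanti hbb
  set α := ⨆ n, (sg lam H n).2.1 with hα
  set β := ⨅ n, (sg lam H n).2.2 with hβ
  have hαn : ∀ n, (sg lam H n).2.1 ≤ α := fun n => le_ciSup hba n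
  have hβn : ∀ n, β ≤ (sg lam H n).2.2 := fun n => ciInf_le hbb n
  have hαβ : α ≤ β := le_of_tendsto_of_tendsto' hta htb fun n => (hmem n).2.1.le
  have hα0 : 0 ≤ α := (hmem 0).1.trans (hαn 0)
  have hβ1 : β ≤ 1 := (hβn 0).trans (hmem 0).2.2
  -- the intervals shrink to a point
  have heq : α = β := by
    by_contra hne
    have hlt : α < β := lt_of_le_of_ne hαβ hne
    obtain ⟨x, hx, hN⟩ := exNT lam 0 hlt
    have hT := T_eq h ⟨hα0.trans hx.1.le, hx.2.le.trans hβ1⟩ hN
    have hag : ∀ n, (F lam x)^[n] (0, 0, 1) = sg lam H n := fun n =>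
      agree hl ⟨(hαn n).trans_lt hx.1, hx.2.trans_le (hβn n)⟩ (le_refl n)
    have hmin : 0 < min (x - α) (β - x) := lt_min (by linarith [hx.1]) (by linarith [hx.2])
    have hge : ∀ n, ENNReal.ofReal (min (x - α) (β - x)) ≤
        ENNReal.ofReal |guess lam ((F lam x)^[n] (0, 0, 1)) - x| := by
      intro n
      refine ENNReal.ofReal_le_ofReal ?_
      rw [hag]
      by_cases hc : guess lam (sg lam H n) < posAt (alpern lam) H n
      · have h1 := hαn (n + 1)
        rw [sg_true hc] at h1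
        simp only at h1
        rw [abs_sub_comm]
        exact (min_le_left _ _).trans ((by linarith : x - α ≤ x - guess lam (sg lam H n)).trans
          (le_abs_self _))
      · have h1 := hβn (n + 1)
        rw [sg_false hc] at h1
        simp only at h1
        exact (min_le_right _ _).trans ((by linarith : β - x ≤ guess lam (sg lam H n) - x).trans
          (le_abs_self _))
    have htop : T lam (0, 0, 1) x = ⊤ := by
      unfold T
      rw [eq_top_iff]
      calc (⊤ : ℝ≥0∞) = ∑' _ : ℕ, ENNReal.ofReal (min (x - α) (β - x)) :=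
            (ENNReal.tsum_const_eq_top_of_ne_zero (by simpa using hmin)).symm
        _ ≤ _ := ENNReal.tsum_le_tsum hge
    rw [htop] at hT
    exact ENNReal.ofReal_ne_top hT.symm
  -- convergence of the positions
  have hpos : Tendsto (posAt (alpern lam) H) atTop (𝓝 α) := by
    refine tendsto_of_tendsto_of_tendsto_of_le_of_le hta (heq ▸ htb) (fun n => ?_) fun n => ?_
    · exact (pos_mem hH hno n 0).1
    · exact (pos_mem hH hno n 0).2
  refine (iInf_le_of_le α (iInf_le_of_le hpos (le_refl _))).trans ?_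
  refine ENNReal.tsum_le_of_sum_range_le fun N => ?_
  rw [← ENNReal.ofReal_sum_of_nonneg fun n _ => abs_nonneg _]
  refine ENNReal.ofReal_le_ofReal ?_
  refine le_of_forall_pos_le_add fun η hη => ?_
  have hNp : (0 : ℝ) < N + 1 := by positivity
  have hη' : 0 < η / (N + 1) := by positivity
  have hαN := hαn N
  have hβN : α ≤ (sg lam H N).2.2 := heq ▸ hβn N
  have hint : max (sg lam H N).2.1 (α - η / (N + 1)) < min (sg lam H N).2.2 (α + η / (N + 1)) := by
    have hm := (hmem N).2.1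
    refine max_lt (lt_min hm (by linarith)) (lt_min (by linarith) (by linarith))
  obtain ⟨x, hx, hxN⟩ := exNT lam 0 hint
  have hx1 : (sg lam H N).2.1 < x := (le_max_left _ _).trans_lt hx.1
  have hx2 : x < (sg lam H N).2.2 := hx.2.trans_le (min_le_left _ _)
  have hx3 : α - η / (N + 1) < x := (le_max_right _ _).trans_lt hx.1
  have hx4 : x < α + η / (N + 1) := hx.2.trans_le (min_le_right _ _)
  have hT := T_eq h ⟨(hmem N).1.trans hx1.le, hx2.le.trans (hmem N).2.2⟩ hxN
  have hsum : ∑ n ∈ Finset.range N, |guessAt (alpern lam) H n - x| ≤ v := by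
    have h1 : ∑ n ∈ Finset.range N, ENNReal.ofReal |guess lam ((F lam x)^[n] (0, 0, 1)) - x| ≤
        ENNReal.ofReal v := by
      rw [← hT]
      exact ENNReal.sum_le_tsum _
    have h2 : ∑ n ∈ Finset.range N, ENNReal.ofReal |guess lam ((F lam x)^[n] (0, 0, 1)) - x| =
        ∑ n ∈ Finset.range N, ENNReal.ofReal |guessAt (alpern lam) H n - x| := by
      refine Finset.sum_congr rfl fun n hn => ?_
      rw [agree hl ⟨hx1, hx2⟩ (Finset.mem_range.1 hn).le, guessAt_eq]
    rw [h2, ← ENNReal.ofReal_sum_of_nonneg fun n _ => abs_nonneg _] at h1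
    exact (ENNReal.ofReal_le_ofReal_iff hv).1 h1
  have habs : |x - α| ≤ η / (N + 1) := abs_le.2 ⟨by linarith, by linarith⟩
  calc ∑ n ∈ Finset.range N, |guessAt (alpern lam) H n - α|
      ≤ ∑ n ∈ Finset.range N, (|guessAt (alpern lam) H n - x| + η / (N + 1)) := by
        refine Finset.sum_le_sum fun n _ => ?_
        have := abs_sub_le (guessAt (alpern lam) H n) x α
        linarith
    _ = ∑ n ∈ Finset.range N, |guessAt (alpern lam) H n - x| + N * (η / (N + 1)) := by
        rw [Finset.sum_add_distrib, Finset.sum_const, Finset.card_range, nsmul_eq_mul]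
    _ ≤ v + η := by
        have : (N : ℝ) * (η / (N + 1)) ≤ η := by
          rw [← mul_div_assoc, div_le_iff₀ hNp]
          nlinarith
        linarith

end searcher

end Pool.Agent.Q215.Alp
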