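import Pool.Agent.Q215.Alp.Defs

/-!
# Static analysis of Alpern's strategy: the recursion of the state values
-/

namespace Pool.Agent.Q215.Alp

open Set Filter Topology
open scoped ENNReal

variable {lam : ℤ → ℝ}

/-- The step against a fixed number `x`. -/
noncomputable def F (lam : ℤ → ℝ) (x : ℝ) (σ : ℤ × ℝ × ℝ) : ℤ × ℝ × ℝ :=
  upd lam σ (open Classical in decide (guess lam σ < x))

/-- Future payoff from the state `σ` against the number `x`. -/
noncomputable def T (lam : ℤ → ℝ) (σ : ℤ × ℝ × ℝ) (x : ℝ) : ℝ≥0∞ :=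
  ∑' n, ENNReal.ofReal |guess lam ((F lam x)^[n] σ) - x|

lemma T_shift (σ : ℤ × ℝ × ℝ) (x : ℝ) :
    T lam σ x = ENNReal.ofReal |guess lam σ - x| + T lam (F lam x σ) x := by
  unfold T
  rw [tsum_eq_zero_add' ENNReal.summable]
  rfl

lemma F_true {x : ℝ} {σ : ℤ × ℝ × ℝ} (h : guess lam σ < x) :
    F lam x σ = (σ.1 + 1, guess lam σ, σ.2.2) := by
  unfold F upd
  simp [h]

lemma F_false {x : ℝ} {σ : ℤ × ℝ × ℝ} (h : ¬ guess lam σ < x) :
    F lam x σ = (σ.1 - 1, σ.2.1, guess lam σ) := by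
  unfold F upd
  simp [h]

/-- Affine change of coordinates. -/
def A (c d : ℝ) (σ : ℤ × ℝ × ℝ) : ℤ × ℝ × ℝ := (σ.1, c + d * σ.2.1, c + d * σ.2.2)

lemma guess_A (c d : ℝ) (σ : ℤ × ℝ × ℝ) : guess lam (A c d σ) = c + d * guess lam σ := by
  unfold guess A
  ring

lemma F_A {c d : ℝ} (hd : 0 < d) (σ : ℤ × ℝ × ℝ) (x : ℝ) :
    F lam (c + d * x) (A c d σ) = A c d (F lam x σ) := by
  by_cases h : guess lam σ < x
  · have h' : guess lam (A c d σ) < c + d * x := by
      rw [guess_A]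
      have := mul_lt_mul_of_pos_left h hd
      linarith
    rw [F_true h, F_true h', guess_A]
    rfl
  · have h' : ¬ guess lam (A c d σ) < c + d * x := by
      rw [guess_A]
      have := mul_le_mul_of_nonneg_left (not_lt.1 h) hd.le
      linarith
    rw [F_false h, F_false h', guess_A]
    rfl

lemma iter_A {c d : ℝ} (hd : 0 < d) (σ : ℤ × ℝ × ℝ) (x : ℝ) (n : ℕ) :
    (F lam (c + d * x))^[n] (A c d σ) = A c d ((F lam x)^[n] σ) := by
  induction n with
  | zero => rfl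
  | succ n ih => rw [Function.iterate_succ_apply', ih, F_A hd, Function.iterate_succ_apply']

lemma T_A {c d : ℝ} (hd : 0 < d) (σ : ℤ × ℝ × ℝ) (x : ℝ) :
    T lam (A c d σ) (c + d * x) = ENNReal.ofReal d * T lam σ x := by
  unfold T
  rw [← ENNReal.tsum_mul_left]
  refine tsum_congr fun n => ?_
  rw [iter_A hd, guess_A, ← ENNReal.ofReal_mul hd.le]
  congr 1
  rw [show c + d * guess lam ((F lam x)^[n] σ) - (c + d * x) =
    d * (guess lam ((F lam x)^[n] σ) - x) by ring, abs_mul, abs_of_pos hd]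

lemma st_A (c d : ℝ) (σ : ℤ × ℝ × ℝ) (s : List Bool) :
    st lam (A c d σ) s = A c d (st lam σ s) := by
  induction s with
  | nil => rfl
  | cons b s ih =>
    simp only [st, ih]
    have hg := guess_A (lam := lam) c d (st lam σ s)
    cases b
    · simp only [upd, Bool.false_eq_true, if_false, hg]
      simp only [A]
    · simp only [upd, if_true, hg]
      simp only [A]

lemma st_append (σ : ℤ × ℝ × ℝ) (s : List Bool) (b : Bool) :
    st lam σ (s ++ [b]) = st lam (upd lam σ b) s := by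
  induction s with
  | nil => rfl
  | cons c s ih => simp only [List.cons_append, st, ih]

lemma st_append' (σ : ℤ × ℝ × ℝ) (s s' : List Bool) :
    st lam σ (s ++ s') = st lam (st lam σ s') s := by
  induction s with
  | nil => rfl
  | cons c s ih => simp only [List.cons_append, st, ih]

lemma guess_mem (hl : ∀ k, lam k ∈ Ioo (0 : ℝ) 1) {σ : ℤ × ℝ × ℝ} (h : σ.2.1 < σ.2.2) :
    guess lam σ ∈ Ioo σ.2.1 σ.2.2 := by
  obtain ⟨h0, h1⟩ := hl σ.1
  unfold guess
  constructor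
  · nlinarith
  · nlinarith

/-- All the states have intervals inside the interval of the first state. -/
lemma st_mem (hl : ∀ k, lam k ∈ Ioo (0 : ℝ) 1) {σ : ℤ × ℝ × ℝ} (h : σ.2.1 < σ.2.2)
    (s : List Bool) :
    σ.2.1 ≤ (st lam σ s).2.1 ∧ (st lam σ s).2.1 < (st lam σ s).2.2 ∧
      (st lam σ s).2.2 ≤ σ.2.2 := by
  induction s with
  | nil => exact ⟨le_refl _, h, le_refl _⟩
  | cons b s ih =>
    obtain ⟨h1, h2, h3⟩ := ih
    have hg := guess_mem hl h2
    cases b
    · simp only [st, upd, Bool.false_eq_true, if_false]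
      exact ⟨h1, hg.1, hg.2.le.trans h3⟩
    · simp only [st, upd, if_true]
      exact ⟨h1.trans hg.1.le, hg.2, h3⟩

/-- `x` is not one of the guesses which can be made from the state `(k, 0, 1)`. -/
def NT (lam : ℤ → ℝ) (k : ℤ) (x : ℝ) : Prop := ∀ s, guess lam (st lam (k, 0, 1) s) ≠ x

lemma exNT (lam : ℤ → ℝ) (k : ℤ) {a b : ℝ} (hab : a < b) : ∃ y ∈ Ioo a b, NT lam k y := by
  have hc : (range fun s : List Bool => guess lam (st lam (k, 0, 1) s)).Countable :=
    countable_range _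
  have hd := hc.dense_compl ℝ
  obtain ⟨y, hy, h⟩ := hd.exists_between hab
  exact ⟨y, h, fun s hs => hy ⟨s, hs⟩⟩

lemma guess_unit (lam : ℤ → ℝ) (k : ℤ) : guess lam (k, 0, 1) = 1 - lam k := by
  unfold guess
  ring

lemma upd_true_unit (lam : ℤ → ℝ) (k : ℤ) :
    upd lam (k, 0, 1) true = A (1 - lam k) (lam k) (k + 1, 0, 1) := by
  simp only [upd, guess_unit, A, if_true]
  ext <;> simp

lemma upd_false_unit (lam : ℤ → ℝ) (k : ℤ) :
    upd lam (k, 0, 1) false = A 0 (1 - lam k) (k - 1, 0, 1) := by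
  simp only [upd, guess_unit, A]
  ext <;> simp

lemma NT_up (hl : ∀ k, lam k ∈ Ioo (0 : ℝ) 1) {k : ℤ} {y : ℝ} (hy : 0 < y)
    (h : NT lam (k + 1) y) : NT lam k ((1 - lam k) + lam k * y) := by
  obtain ⟨h0, h1⟩ := hl k
  intro s hs
  rcases List.eq_nil_or_concat s with rfl | ⟨s', b, rfl⟩
  · simp only [st, guess_unit] at hs
    have := mul_pos h0 hy
    linarith
  · rw [List.concat_eq_append] at hs
    rw [st_append] at hs
    cases b
    · -- all guesses are below
      have hm := st_mem hl (σ := upd lam (k, 0, 1) false)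
        (by rw [upd_false_unit]; simp only [A]; linarith) s'
      have hg := guess_mem hl hm.2.1
      have h3 := hm.2.2
      rw [hs] at hg
      rw [upd_false_unit] at h3 hg
      have e : (A 0 (1 - lam k) (k - 1, 0, 1)).2.2 = 1 - lam k := by simp [A]
      rw [e] at h3
      have := mul_pos h0 hy
      have h4 := hg.2
      linarith
    · rw [upd_true_unit, st_A, guess_A] at hs
      refine h s' ?_
      have : lam k * guess lam (st lam (k + 1, 0, 1) s') = lam k * y := by linarith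
      exact mul_left_cancel₀ h0.ne' this

lemma NT_down (hl : ∀ k, lam k ∈ Ioo (0 : ℝ) 1) {k : ℤ} {y : ℝ} (hy : y < 1)
    (h : NT lam (k - 1) y) : NT lam k ((1 - lam k) * y) := by
  obtain ⟨h0, h1⟩ := hl k
  intro s hs
  rcases List.eq_nil_or_concat s with rfl | ⟨s', b, rfl⟩
  · simp only [st, guess_unit] at hs
    have := mul_pos (by linarith : 0 < 1 - lam k) (by linarith : 0 < 1 - y)
    nlinarith
  · rw [List.concat_eq_append] at hs
    rw [st_append] at hs
    cases b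
    · rw [upd_false_unit, st_A, guess_A, zero_add] at hs
      exact h s' (mul_left_cancel₀ (by linarith) hs)
    · have hm := st_mem hl (σ := upd lam (k, 0, 1) true)
        (by rw [upd_true_unit]; simp only [A]; linarith) s'
      have hg := guess_mem hl hm.2.1
      have h3 := hm.1
      rw [hs] at hg
      rw [upd_true_unit] at h3 hg
      have e : (A (1 - lam k) (lam k) (k + 1, 0, 1)).2.1 = 1 - lam k := by simp [A]
      rw [e] at h3
      have := mul_pos (by linarith : 0 < 1 - lam k) (by linarith : 0 < 1 - y)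
      have h4 := hg.1
      nlinarith

lemma T_up (hl : ∀ k, lam k ∈ Ioo (0 : ℝ) 1) {k : ℤ} {y : ℝ} (hy : 0 < y) :
    T lam (k, 0, 1) ((1 - lam k) + lam k * y) =
      ENNReal.ofReal (lam k * y) + ENNReal.ofReal (lam k) * T lam (k + 1, 0, 1) y := by
  obtain ⟨h0, h1⟩ := hl k
  have hp := mul_pos h0 hy
  have hlt : guess lam (k, 0, 1) < (1 - lam k) + lam k * y := by
    rw [guess_unit]; linarith
  rw [T_shift]
  have e : F lam ((1 - lam k) + lam k * y) (k, 0, 1) = A (1 - lam k) (lam k) (k + 1, 0, 1) := by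
    rw [← upd_true_unit]
    unfold F
    simp [hlt]
  rw [e, T_A h0, guess_unit]
  congr 2
  rw [show 1 - lam k - (1 - lam k + lam k * y) = -(lam k * y) by ring, abs_neg, abs_of_pos hp]

lemma T_down (hl : ∀ k, lam k ∈ Ioo (0 : ℝ) 1) {k : ℤ} {y : ℝ} (hy : y < 1) :
    T lam (k, 0, 1) ((1 - lam k) * y) =
      ENNReal.ofReal ((1 - lam k) * (1 - y)) +
        ENNReal.ofReal (1 - lam k) * T lam (k - 1, 0, 1) y := by
  obtain ⟨h0, h1⟩ := hl k
  have hp := mul_pos (by linarith : 0 < 1 - lam k) (by linarith : 0 < 1 - y)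
  have hlt : ¬ guess lam (k, 0, 1) < (1 - lam k) * y := by
    rw [guess_unit]
    nlinarith
  rw [T_shift]
  have e : F lam ((1 - lam k) * y) (k, 0, 1) = A 0 (1 - lam k) (k - 1, 0, 1) := by
    rw [← upd_false_unit]
    unfold F
    simp [hlt]
  have e2 : T lam (A 0 (1 - lam k) (k - 1, 0, 1)) ((1 - lam k) * y) =
      ENNReal.ofReal (1 - lam k) * T lam (k - 1, 0, 1) y := by
    have := T_A (lam := lam) (c := 0) (d := 1 - lam k) (by linarith) (k - 1, 0, 1) y
    rw [zero_add] at this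
    exact this
  rw [e, e2, guess_unit]
  congr 2
  rw [show 1 - lam k - (1 - lam k) * y = (1 - lam k) * (1 - y) by ring, abs_of_pos hp]

/-- The statement that `w` is the value of the state `k`. -/
def Val (lam : ℤ → ℝ) (k : ℤ) (w : ℝ) : Prop :=
  ∀ x ∈ Ioo (0 : ℝ) 1, NT lam k x → 0 ≤ w - k * x ∧ T lam (k, 0, 1) x = ENNReal.ofReal (w - k * x)

/-- Elementary inversion. -/
lemma inv_ennreal {p c r : ℝ} (hp : 0 < p) (hc : 0 ≤ c) {t : ℝ≥0∞}
    (h : ENNReal.ofReal r = ENNReal.ofReal c + ENNReal.ofReal p * t) (hr : 0 ≤ r) :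
    0 ≤ (r - c) / p ∧ t = ENNReal.ofReal ((r - c) / p) := by
  have ht : t ≠ ⊤ := by
    rintro rfl
    rw [ENNReal.mul_top (by simpa using hp), add_top] at h
    exact ENNReal.ofReal_ne_top h
  lift t to NNReal using ht
  have h2 : ENNReal.ofReal r = ENNReal.ofReal (c + p * t) := by
    rw [h, ENNReal.ofReal_add hc (mul_nonneg hp.le (NNReal.coe_nonneg t)),
      ENNReal.ofReal_mul hp.le, ENNReal.ofReal_coe_nnreal]
  have h3 : r = c + p * t :=
    (ENNReal.ofReal_eq_ofReal_iff hr (add_nonneg hc (mul_nonneg hp.le (NNReal.coe_nonneg t)))).1 h2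
  have h4 : (r - c) / p = (t : ℝ) := by
    rw [h3]
    field_simp
    ring
  rw [h4]
  exact ⟨t.2, by rw [ENNReal.ofReal_coe_nnreal]⟩

lemma val_up (hl : ∀ k, lam k ∈ Ioo (0 : ℝ) 1) {k : ℤ} {w : ℝ} (h : Val lam k w) :
    Val lam (k + 1) ((w - k * (1 - lam k)) / lam k) := by
  obtain ⟨h0, h1⟩ := hl k
  intro y hy hN
  have hx : (1 - lam k) + lam k * y ∈ Ioo (0 : ℝ) 1 := by
    constructor
    · nlinarith [mul_pos h0 hy.1]
    · nlinarith [mul_pos h0 (sub_pos.2 hy.2)]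
  obtain ⟨e1, e2⟩ := h _ hx (NT_up hl hy.1 hN)
  rw [T_up hl hy.1] at e2
  obtain ⟨e3, e4⟩ := inv_ennreal h0 (mul_pos h0 hy.1).le e2.symm e1
  have e5 : (w - k * (1 - lam k + lam k * y) - lam k * y) / lam k =
      (w - k * (1 - lam k)) / lam k - ((k + 1 : ℤ) : ℝ) * y := by
    push_cast
    field_simp
    ring
  rw [e5] at e3 e4
  exact ⟨e3, e4⟩

lemma val_down (hl : ∀ k, lam k ∈ Ioo (0 : ℝ) 1) {k : ℤ} {w : ℝ} (h : Val lam k w) :
    Val lam (k - 1) (w / (1 - lam k) - 1) := by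
  obtain ⟨h0, h1⟩ := hl k
  have h2 : 0 < 1 - lam k := by linarith
  intro y hy hN
  have hx : (1 - lam k) * y ∈ Ioo (0 : ℝ) 1 := by
    constructor
    · exact mul_pos h2 hy.1
    · nlinarith [mul_pos h2 (sub_pos.2 hy.2)]
  obtain ⟨e1, e2⟩ := h _ hx (NT_down hl hy.2 hN)
  rw [T_down hl hy.2] at e2
  obtain ⟨e3, e4⟩ := inv_ennreal h2 (mul_pos h2 (sub_pos.2 hy.2)).le e2.symm e1
  have e5 : (w - k * ((1 - lam k) * y) - (1 - lam k) * (1 - y)) / (1 - lam k) =
      (w / (1 - lam k) - 1) - ((k - 1 : ℤ) : ℝ) * y := by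
    push_cast
    have := h2.ne'
    field_simp
    ring
  rw [e5] at e3 e4
  exact ⟨e3, e4⟩

/-- Uniqueness of values. -/
lemma val_unique {k : ℤ} {w w' : ℝ} (h : Val lam k w) (h' : Val lam k w') : w = w' := by
  obtain ⟨y, hy, hN⟩ := exNT lam k (one_pos (α := ℝ))
  obtain ⟨a1, a2⟩ := h y hy hN
  obtain ⟨b1, b2⟩ := h' y hy hN
  rw [a2] at b2
  have := (ENNReal.ofReal_eq_ofReal_iff a1 b1).1 b2
  linarith

lemma sans_st (lam : ℤ → ℝ) (h : ℝ) (n : ℕ) :
    st lam (0, 0, 1) (sans (alpern lam) h n) = (F lam h)^[n] (0, 0, 1) := by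
  induction n with
  | zero => rfl
  | succ n ih =>
    rw [Function.iterate_succ_apply', ← ih]
    rfl

lemma spay_eq (lam : ℤ → ℝ) (h : ℝ) : spay (alpern lam) h = T lam (0, 0, 1) h := by
  unfold spay T
  refine tsum_congr fun n => ?_
  rw [← sans_st]
  rfl

lemma val_zero {v : ℝ} (h : IsAlpern lam v) : Val lam 0 v := by
  intro x hx hN
  rw [← spay_eq, h.2.2 x ⟨hx.1.le, hx.2.le⟩ hN]
  refine ⟨by simpa using h.2.1, by simp⟩

/-- The properties of the state values which are used. -/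
structure Vals (lam : ℤ → ℝ) (v : ℝ) (w : ℤ → ℝ) : Prop where
  zero : w 0 = v
  up : ∀ k, w k = lam k * w (k + 1) + k * (1 - lam k)
  down : ∀ k, w k = (1 - lam k) * (1 + w (k - 1))
  nonneg : ∀ k, 0 ≤ w k
  ge : ∀ k : ℤ, (k : ℝ) ≤ w k

theorem exists_vals {v : ℝ} (h : IsAlpern lam v) : ∃ w, Vals lam v w := by
  have hl := h.1
  have hex : ∀ k, ∃ w, Val lam k w := by
    intro k
    induction k using Int.induction_on with
    | zero => exact ⟨v, val_zero h⟩
    | succ k ih =>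
      obtain ⟨w, hw⟩ := ih
      exact ⟨_, val_up hl hw⟩
    | pred k ih =>
      obtain ⟨w, hw⟩ := ih
      exact ⟨_, val_down hl hw⟩
  choose w hw using hex
  have hbound : ∀ k (y : ℝ), y ∈ Ioo (0 : ℝ) 1 → NT lam k y → 0 ≤ w k - k * y :=
    fun k y hy hN => (hw k y hy hN).1
  refine ⟨w, val_unique (hw 0) (val_zero h), fun k => ?_, fun k => ?_, fun k => ?_, fun k => ?_⟩
  · obtain ⟨h0, h1⟩ := hl k
    have := val_unique (hw (k + 1)) (val_up hl (hw k))
    rw [this]
    field_simp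
    ring
  · obtain ⟨h0, h1⟩ := hl k
    have h2 : (1 - lam k) ≠ 0 := by
      have : 0 < 1 - lam k := by linarith
      exact this.ne'
    have := val_unique (hw (k - 1)) (val_down hl (hw k))
    rw [this]
    field_simp
    ring
  · by_contra hneg
    push Not at hneg
    have hk : (0 : ℝ) < |(k : ℝ)| + 1 := by positivity
    have hd : 0 < min 1 ((-w k) / (|(k : ℝ)| + 1)) := lt_min one_pos (div_pos (by linarith) hk)
    obtain ⟨y, hy, hN⟩ := exNT lam k hd
    have hy1 : y < 1 := hy.2.trans_le (min_le_left _ _)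
    have hy2 : y < (-w k) / (|(k : ℝ)| + 1) := hy.2.trans_le (min_le_right _ _)
    have hb := hbound k y ⟨hy.1, hy1⟩ hN
    rw [lt_div_iff₀ hk] at hy2
    have h3 : -(k * y) ≤ y * |(k : ℝ)| := by
      have := neg_abs_le (k : ℝ)
      nlinarith [hy.1]
    nlinarith [hy.1]
  · by_contra hneg
    push Not at hneg
    have hk : (0 : ℝ) < |(k : ℝ)| + 1 := by positivity
    have hd : max 0 (1 - ((k : ℝ) - w k) / (|(k : ℝ)| + 1)) < 1 := by
      refine max_lt one_pos ?_
      have := div_pos (sub_pos.2 hneg) hk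
      linarith
    obtain ⟨y, hy, hN⟩ := exNT lam k hd
    have hy1 : 0 < y := (le_max_left _ _).trans_lt hy.1
    have hy2 : 1 - ((k : ℝ) - w k) / (|(k : ℝ)| + 1) < y := (le_max_right _ _).trans_lt hy.1
    have hb := hbound k y ⟨hy1, hy.2⟩ hN
    have hy3 : (1 - y) < ((k : ℝ) - w k) / (|(k : ℝ)| + 1) := by linarith
    rw [lt_div_iff₀ hk] at hy3
    have h3 : (k : ℝ) * (1 - y) ≤ (1 - y) * |(k : ℝ)| := by
      have := le_abs_self (k : ℝ)
      nlinarith [hy.2]
    nlinarith [hy.2]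

lemma Vals.le_nonpos {v : ℝ} {w : ℤ → ℝ} (hl : ∀ k, lam k ∈ Ioo (0 : ℝ) 1)
    (h : Vals lam v w) (n : ℕ) : w (-(n : ℤ)) ≤ v := by
  induction n with
  | zero =>
    simp only [Nat.cast_zero, neg_zero]
    exact h.zero.le
  | succ n ih =>
    obtain ⟨h0, h1⟩ := hl (-((n + 1 : ℕ) : ℤ))
    have hu := h.up (-((n + 1 : ℕ) : ℤ))
    have e : -((n + 1 : ℕ) : ℤ) + 1 = -(n : ℤ) := by push_cast; ring
    rw [e] at hu
    have hn := h.nonneg (-(n : ℤ))
    have h2 : ((-((n + 1 : ℕ) : ℤ) : ℤ) : ℝ) * (1 - lam (-((n + 1 : ℕ) : ℤ))) ≤ 0 := by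
      refine mul_nonpos_of_nonpos_of_nonneg ?_ (by linarith)
      push_cast
      have : (0 : ℝ) ≤ n := Nat.cast_nonneg n
      linarith
    nlinarith

lemma Vals.le_nonneg {v : ℝ} {w : ℤ → ℝ} (hl : ∀ k, lam k ∈ Ioo (0 : ℝ) 1)
    (h : Vals lam v w) (n : ℕ) : w (n : ℤ) ≤ v + n := by
  induction n with
  | zero =>
    simp only [Nat.cast_zero, add_zero]
    exact h.zero.le
  | succ n ih =>
    obtain ⟨h0, h1⟩ := hl ((n + 1 : ℕ) : ℤ)
    have hu := h.down ((n + 1 : ℕ) : ℤ)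
    have e : ((n + 1 : ℕ) : ℤ) - 1 = (n : ℤ) := by push_cast; ring
    rw [e] at hu
    have hn := h.nonneg (n : ℤ)
    push_cast at hu h0 h1 ⊢
    nlinarith

lemma Vals.le_of_nonpos {v : ℝ} {w : ℤ → ℝ} (hl : ∀ k, lam k ∈ Ioo (0 : ℝ) 1)
    (h : Vals lam v w) {k : ℤ} (hk : k ≤ 0) : w k ≤ v := by
  obtain ⟨n, hn⟩ := Int.eq_ofNat_of_zero_le (by lia : 0 ≤ -k)
  have : k = -(n : ℤ) := by lia
  rw [this]
  exact h.le_nonpos hl n

lemma Vals.le_of_nonneg {v : ℝ} {w : ℤ → ℝ} (hl : ∀ k, lam k ∈ Ioo (0 : ℝ) 1)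
    (h : Vals lam v w) {k : ℤ} (hk : 0 ≤ k) : w k ≤ v + k := by
  obtain ⟨n, hn⟩ := Int.eq_ofNat_of_zero_le hk
  rw [hn]
  have := h.le_nonneg hl n
  push_cast
  exact this

end Pool.Agent.Q215.Alp
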